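import Pool.Agent.Q23.EG.Stm

/-! Project EG of helper23, jobs C3 and C4. -/

set_option autoImplicit false

namespace Pool.Agent.Q123.EG

open Finset Pool.Agent.Q23.EG

/-- C4 -/
theorem nondeg : S_nondeg := by
  intro M _ w x hwx H ℓ hℓ hℓM
  have h1 : M ∣ w.val * x.val := by
    rw [← ZMod.natCast_eq_zero_iff]
    push_cast
    rw [ZMod.natCast_zmod_val, ZMod.natCast_zmod_val]
    exact hwx
  have hM0 : M ≠ 0 := NeZero.ne M
  have h2 : ℓ ^ M.factorization ℓ ∣ w.val * x.val := (Nat.ordProj_dvd M ℓ).trans h1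
  have hx : ℓ ∣ x.val := by
    by_contra hcon
    have h3 : Nat.Coprime (ℓ ^ M.factorization ℓ) x.val :=
      Nat.Coprime.pow_left _ ((Nat.Prime.coprime_iff_not_dvd hℓ).2 hcon)
    exact H ℓ hℓ hℓM ((pow_dvd_pow ℓ (Nat.sub_le _ _)).trans (h3.dvd_of_dvd_mul_right h2))
  refine ⟨hx, fun h2' _ => ?_⟩
  subst h2'
  by_contra hcon
  obtain ⟨y, hy⟩ := hx
  have hyodd : ¬ 2 ∣ y := fun ⟨z, hz⟩ => hcon ⟨z, by omega⟩
  have h5 : 1 ≤ M.factorization 2 := (hℓ.dvd_iff_one_le_factorization hM0).1 hℓM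
  obtain ⟨v, hv⟩ : ∃ v, M.factorization 2 = v + 1 := ⟨M.factorization 2 - 1, by omega⟩
  rw [hv, hy, pow_succ] at h2
  have h6 : 2 ^ v ∣ w.val * y := by
    obtain ⟨z, hz⟩ := h2
    refine ⟨z, ?_⟩
    have h7 : 2 * (w.val * y) = 2 * (2 ^ v * z) := by
      rw [mul_left_comm, hz]
      ring
    exact Nat.eq_of_mul_eq_mul_left two_pos h7
  have h8 : Nat.Coprime (2 ^ v) y :=
    Nat.Coprime.pow_left _ ((Nat.Prime.coprime_iff_not_dvd hℓ).2 hyodd)
  apply H 2 hℓ hℓM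
  rw [if_pos rfl, hv, Nat.add_sub_cancel]
  exact h8.dvd_of_dvd_mul_right h6

theorem card_mult (M d : ℕ) [NeZero M] (hd : d ∣ M) :
    (univ.filter (fun w : ZMod M => d ∣ w.val)).card ≤ M / d := by
  have hM0 : 0 < M := NeZero.pos M
  have hd0 : 0 < d := Nat.pos_of_dvd_of_pos hd hM0
  have h : (univ.filter (fun w : ZMod M => d ∣ w.val)).card ≤ (range (M / d)).card := by
    refine card_le_card_of_injOn (fun w => w.val / d) ?_ ?_
    · intro w hw
      have h1 := w.val_lt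
      simp only [coe_range, Set.mem_Iio]
      exact Nat.div_lt_div_of_lt_of_dvd hd h1
    · intro w hw w' hw' h1
      have h2 : d ∣ w.val := (mem_filter.1 hw).2
      have h3 : d ∣ w'.val := (mem_filter.1 hw').2
      have h4 : w.val / d = w'.val / d := h1
      apply ZMod.val_injective M
      rw [← Nat.div_mul_cancel h2, ← Nat.div_mul_cancel h3, h4]
  rwa [card_range] at h

open scoped Classical in
/-- C3 -/
theorem deg : S_deg := by
  intro M A _ hM1 hA H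
  have hM0 : M ≠ 0 := NeZero.ne M
  set d : ℕ → ℕ := fun ℓ => ℓ ^ (M.factorization ℓ - (if ℓ = 2 then 1 else 0)) with hd
  have hdM : ∀ ℓ, d ℓ ∣ M := fun ℓ =>
    (pow_dvd_pow ℓ (Nat.sub_le _ _)).trans (Nat.ordProj_dvd M ℓ)
  have hsub : (univ.filter (fun w : ZMod M => ∃ ℓ : ℕ, ℓ.Prime ∧ ℓ ∣ M ∧
      ℓ ^ (M.factorization ℓ - (if ℓ = 2 then 1 else 0)) ∣ w.val)) ⊆
      M.primeFactors.biUnion fun ℓ => univ.filter (fun w : ZMod M => d ℓ ∣ w.val) := by
    intro w hw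
    obtain ⟨ℓ, h1, h2, h3⟩ := (mem_filter.1 hw).2
    rw [mem_biUnion]
    exact ⟨ℓ, Nat.mem_primeFactors.2 ⟨h1, h2, hM0⟩, mem_filter.2 ⟨mem_univ _, h3⟩⟩
  have hc := (card_le_card hsub).trans card_biUnion_le
  have hc2 : ∑ ℓ ∈ M.primeFactors, (univ.filter (fun w : ZMod M => d ℓ ∣ w.val)).card ≤
      ∑ ℓ ∈ M.primeFactors, M / d ℓ := sum_le_sum fun ℓ _ => card_mult M (d ℓ) (hdM ℓ)
  have hne : M.primeFactors.Nonempty := Nat.nonempty_primeFactors.2 (by omega)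
  have hω : 0 < M.primeFactors.card := hne.card_pos
  have key : ∀ ℓ ∈ M.primeFactors, M.primeFactors.card * (A * (M / d ℓ)) < M := by
    intro ℓ hℓ
    obtain ⟨h1, h2, -⟩ := Nat.mem_primeFactors.1 hℓ
    have h3 := H ℓ h1 h2
    have h4 : 1 ≤ M.factorization ℓ := (h1.dvd_iff_one_le_factorization hM0).1 h2
    have h5 : ℓ ^ M.factorization ℓ = d ℓ * (if ℓ = 2 then 2 else 1) := by
      rw [hd]
      simp only
      split_ifs with h
      · subst h
        rw [← pow_succ, Nat.sub_add_cancel h4]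
      · rw [Nat.sub_zero, mul_one]
    rw [h5] at h3
    have h6 : A * M.primeFactors.card < d ℓ := lt_of_mul_lt_mul_right h3 (Nat.zero_le _)
    have h7 : 0 < M / d ℓ := Nat.div_pos (Nat.le_of_dvd (Nat.pos_of_ne_zero hM0) (hdM ℓ))
      (by omega)
    calc M.primeFactors.card * (A * (M / d ℓ)) = A * M.primeFactors.card * (M / d ℓ) := by ring
      _ < d ℓ * (M / d ℓ) := Nat.mul_lt_mul_of_pos_right h6 h7
      _ = M := Nat.mul_div_cancel' (hdM ℓ)
  have hsum : M.primeFactors.card * ∑ ℓ ∈ M.primeFactors, A * (M / d ℓ) <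
      M.primeFactors.card * M := by
    rw [mul_sum]
    refine (sum_lt_sum_of_nonempty hne key).trans_le ?_
    rw [sum_const, smul_eq_mul]
  have hfin : ∑ ℓ ∈ M.primeFactors, A * (M / d ℓ) < M := lt_of_mul_lt_mul_left hsum (Nat.zero_le _)
  refine lt_of_le_of_lt ?_ hfin
  rw [← mul_sum]
  exact Nat.mul_le_mul_left A (hc.trans hc2)

end Pool.Agent.Q123.EG
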