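import Pool.Agent.Q23.EG.Stm

/-! Project EG of helper23, job B. -/

set_option autoImplicit false

namespace Pool.Agent.Q123.EG

open Finset Polynomial Pool.Agent.Q23.EG

section
variable {k : Type} [Field k] {M : ℕ} {θ : k}

/-- orthogonality -/
theorem orth (hθ : IsPrimitiveRoot θ M) (hM : 0 < M) (X Y : ℕ) :
    ∑ s ∈ range M, (θ⁻¹ ^ X * θ ^ Y) ^ s = if Y ≡ X [MOD M] then (M : k) else 0 := by
  have hθ0 : θ ≠ 0 := hθ.ne_zero hM.ne'
  have h1 : θ⁻¹ ^ X * θ ^ Y = 1 ↔ Y ≡ X [MOD M] := by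
    rw [inv_pow, inv_mul_eq_one₀ (pow_ne_zero _ hθ0)]
    constructor
    · intro h
      rcases le_total X Y with hle | hle
      · have h2 : θ ^ (Y - X) = 1 := by
          apply mul_left_cancel₀ (pow_ne_zero X hθ0)
          rw [← pow_add, Nat.add_sub_cancel' hle, mul_one, h]
        exact ((Nat.modEq_iff_dvd' hle).2 ((hθ.pow_eq_one_iff_dvd _).1 h2)).symm
      · have h2 : θ ^ (X - Y) = 1 := by
          apply mul_left_cancel₀ (pow_ne_zero Y hθ0)
          rw [← pow_add, Nat.add_sub_cancel' hle, mul_one, h]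
        exact (Nat.modEq_iff_dvd' hle).2 ((hθ.pow_eq_one_iff_dvd _).1 h2)
    · intro h
      rcases le_total X Y with hle | hle
      · have h2 := (hθ.pow_eq_one_iff_dvd _).2 ((Nat.modEq_iff_dvd' hle).1 h.symm)
        rw [← Nat.add_sub_cancel' hle, pow_add, h2, mul_one]
      · have h2 := (hθ.pow_eq_one_iff_dvd _).2 ((Nat.modEq_iff_dvd' hle).1 h)
        rw [← Nat.add_sub_cancel' hle, pow_add, h2, mul_one]
  split_ifs with h
  · rw [h1.2 h]
    simp
  · have h2 : θ⁻¹ ^ X * θ ^ Y ≠ 1 := fun h3 => h (h1.1 h3)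
    have h3 : (θ⁻¹ ^ X * θ ^ Y) ^ M = 1 := by
      rw [mul_pow, ← pow_mul, ← pow_mul, mul_comm X, mul_comm Y, pow_mul, pow_mul, inv_pow,
        hθ.pow_eq_one, inv_one, one_pow, one_pow, one_mul]
    have h4 := mul_geom_sum (θ⁻¹ ^ X * θ ^ Y) M
    rw [h3, sub_self] at h4
    exact (mul_eq_zero.1 h4).resolve_left (sub_ne_zero.2 h2)

/-- extraction of one coefficient of a product -/
theorem extr {J : Type} [Fintype J] [DecidableEq J] (hθ : IsPrimitiveRoot θ M) (hM : 0 < M)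
    {D : ℕ} (P : J → k[X]) (hP : ∀ l, (P l).natDegree ≤ D) (z : J → k) (x : J → ℕ) (X : ℕ)
    (κ' : J → ℕ) (h' : ∀ l, κ' l ≤ D) (hX : ∑ l, κ' l * x l ≡ X [MOD M])
    (hu : ∀ κ : J → ℕ, (∀ l, κ l ≤ D) → ∑ l, κ l * x l ≡ X [MOD M] → κ = κ') :
    ∑ s ∈ range M, θ⁻¹ ^ (X * s) * ∏ l, (P l).eval (z l * θ ^ (x l * s)) =
      (M : k) * ∏ l, ((P l).coeff (κ' l) * z l ^ κ' l) := by
  have h1 : ∀ s, ∏ l, (P l).eval (z l * θ ^ (x l * s)) =
      ∑ κ ∈ Fintype.piFinset (fun _ : J => range (D + 1)),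
        (∏ l, ((P l).coeff (κ l) * z l ^ κ l)) * (θ ^ (∑ l, κ l * x l)) ^ s := by
    intro s
    have h2 : ∀ l, (P l).eval (z l * θ ^ (x l * s)) =
        ∑ n ∈ range (D + 1), (P l).coeff n * (z l * θ ^ (x l * s)) ^ n := fun l =>
      eval_eq_sum_range' (Nat.lt_succ_of_le (hP l)) _
    rw [Finset.prod_congr rfl fun l _ => h2 l, Finset.prod_univ_sum]
    refine Finset.sum_congr rfl fun κ _ => ?_
    rw [← pow_mul, Finset.sum_mul, ← Finset.prod_pow_eq_pow_sum, ← Finset.prod_mul_distrib]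
    refine Finset.prod_congr rfl fun l _ => ?_
    have h3 : (θ ^ (x l * s)) ^ κ l = θ ^ (κ l * x l * s) := by
      rw [← pow_mul]
      congr 1
      ring
    rw [mul_pow, h3, ← mul_assoc]
  calc ∑ s ∈ range M, θ⁻¹ ^ (X * s) * ∏ l, (P l).eval (z l * θ ^ (x l * s))
      = ∑ s ∈ range M, ∑ κ ∈ Fintype.piFinset (fun _ : J => range (D + 1)),
        (∏ l, ((P l).coeff (κ l) * z l ^ κ l)) * (θ⁻¹ ^ X * θ ^ (∑ l, κ l * x l)) ^ s := by
        refine Finset.sum_congr rfl fun s _ => ?_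
        rw [h1, Finset.mul_sum]
        refine Finset.sum_congr rfl fun κ _ => ?_
        rw [mul_pow, ← pow_mul θ⁻¹ X s]
        ring
    _ = ∑ κ ∈ Fintype.piFinset (fun _ : J => range (D + 1)),
        (∏ l, ((P l).coeff (κ l) * z l ^ κ l)) *
          (if ∑ l, κ l * x l ≡ X [MOD M] then (M : k) else 0) := by
        rw [Finset.sum_comm]
        refine Finset.sum_congr rfl fun κ _ => ?_
        rw [← Finset.mul_sum, orth hθ hM]
    _ = (M : k) * ∏ l, ((P l).coeff (κ' l) * z l ^ κ' l) := by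
        rw [Finset.sum_eq_single κ']
        · rw [if_pos hX, mul_comm]
        · intro κ hκ hne
          rw [if_neg, mul_zero]
          intro h
          apply hne
          refine hu κ (fun l => ?_) h
          have := Fintype.mem_piFinset.1 hκ l
          exact Nat.lt_succ_iff.1 (mem_range.1 this)
        · intro h
          exact absurd (Fintype.mem_piFinset.2 fun l => mem_range.2 (Nat.lt_succ_of_le (h' l))) h

end

/-- B -/
theorem extract : S_extract := by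
  intro k _ ι _ I i₀ D M θ B A x z V c hi₀ hM hMk hθ hBd hBD hA hz hV hsum huniq j hj
  obtain ⟨mk, hmk⟩ : ∃ mk : (I → ℕ) → ι → ℕ, ∀ (κ : I → ℕ) (i : ι) (h : i ∈ I),
      mk κ i = κ ⟨i, h⟩ :=
    ⟨fun κ i => if h : i ∈ I then κ ⟨i, h⟩ else 0, fun κ i h => dif_pos h⟩
  set X : ℕ := j * x i₀ + ∑ i ∈ I.erase i₀, D * x i with hXdef
  -- the exponent vector
  set κ' : I → ℕ := fun l => if l.1 = i₀ then j else D with hκ'
  have hκD : ∀ l, κ' l ≤ D := by
    intro l
    rw [hκ']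
    simp only
    split_ifs
    · exact hj.le
    · exact le_rfl
  have hκX : ∑ l, κ' l * x l.1 ≡ X [MOD M] := by
    have h1 : ∑ l : I, κ' l * x l.1 = X := by
      rw [Finset.sum_coe_sort I (fun i => (if i = i₀ then j else D) * x i),
        ← Finset.add_sum_erase I _ hi₀, if_pos rfl, hXdef]
      congr 1
      refine Finset.sum_congr rfl fun i hi => ?_
      rw [if_neg (Finset.ne_of_mem_erase hi)]
    rw [h1]
  have hu : ∀ κ : I → ℕ, (∀ l, κ l ≤ D) → ∑ l, κ l * x l.1 ≡ X [MOD M] → κ = κ' := by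
    intro κ h1 h2
    have h3 : ∑ i ∈ I, mk κ i * x i ≡ X [MOD M] := by
      rw [← Finset.sum_coe_sort I]
      have h4 : ∑ l : I, mk κ l.1 * x l.1 =
          ∑ l, κ l * x l.1 := Finset.sum_congr rfl fun l _ => by rw [hmk κ l.1 l.2]
      rw [h4]
      exact h2
    obtain ⟨h5, h6⟩ := huniq _ (fun i hi => by rw [hmk κ i hi]; exact h1 _) j hj h3
    funext l
    rw [hκ']
    simp only
    split_ifs with h
    · obtain ⟨l, hl⟩ := l
      simp only at h
      subst h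
      rw [hmk κ l hl] at h5
      exact h5
    · have h7 := h6 l.1 l.2 h
      rw [hmk κ l.1 l.2] at h7
      exact h7
  -- the polynomials
  let P : I → I → k[X] := fun i l => if l = i then A i.1 else B
  have hPd : ∀ i l, (P i l).natDegree ≤ D := by
    intro i l
    change (if l = i then A i.1 else B).natDegree ≤ D
    split_ifs
    · exact natDegree_le_of_degree_le (hA i.1 i.2).le
    · exact hBd
  have hE := fun i => extr hθ hM (P i) (hPd i) (fun l => z l.1) (fun l => x l.1) X κ' hκD hκX hu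
  -- the relation at `s`
  have hrel : ∀ s : ℕ, ∑ i : I, c i.1 * ∏ l : I, (P i l).eval (z l.1 * θ ^ (x l.1 * s)) = 0 := by
    intro s
    have h1 : ∀ i : I, ∏ l : I, (P i l).eval (z l.1 * θ ^ (x l.1 * s)) =
        V i.1 s * ∏ l : I, B.eval (z l.1 * θ ^ (x l.1 * s)) := by
      intro i
      rw [← Finset.mul_prod_erase univ _ (mem_univ i), ← Finset.mul_prod_erase univ
        (fun l : I => B.eval (z l.1 * θ ^ (x l.1 * s))) (mem_univ i)]
      have h2 : P i i = A i.1 := if_pos rfl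
      rw [h2, ← hV i.1 i.2 s]
      have h3 : ∏ l ∈ univ.erase i, (P i l).eval (z l.1 * θ ^ (x l.1 * s)) =
          ∏ l ∈ univ.erase i, B.eval (z l.1 * θ ^ (x l.1 * s)) := by
        refine Finset.prod_congr rfl fun l hl => ?_
        have h4 : P i l = B := if_neg (Finset.ne_of_mem_erase hl)
        rw [h4]
      rw [h3]
      ring
    have h5 : ∑ i : I, c i.1 * ∏ l : I, (P i l).eval (z l.1 * θ ^ (x l.1 * s)) =
        (∑ i : I, c i.1 * V i.1 s) * ∏ l : I, B.eval (z l.1 * θ ^ (x l.1 * s)) := by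
      rw [Finset.sum_mul]
      refine Finset.sum_congr rfl fun i _ => ?_
      rw [h1, mul_assoc]
    rw [h5, Finset.sum_coe_sort I (fun i => c i * V i s), hsum, zero_mul]
  -- sum over `s`
  have htot : ∑ i : I, c i.1 * ((M : k) * ∏ l : I, ((P i l).coeff (κ' l) * z l.1 ^ κ' l)) = 0 := by
    have h1 : ∑ s ∈ range M, θ⁻¹ ^ (X * s) *
        ∑ i : I, c i.1 * ∏ l : I, (P i l).eval (z l.1 * θ ^ (x l.1 * s)) = 0 :=
      Finset.sum_eq_zero fun s _ => by rw [hrel, mul_zero]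
    rw [← h1]
    have h2 : ∀ i : I, c i.1 * ((M : k) * ∏ l : I, ((P i l).coeff (κ' l) * z l.1 ^ κ' l)) =
        ∑ s ∈ range M, θ⁻¹ ^ (X * s) *
          (c i.1 * ∏ l : I, (P i l).eval (z l.1 * θ ^ (x l.1 * s))) := by
      intro i
      rw [← hE i, Finset.mul_sum]
      refine Finset.sum_congr rfl fun s _ => ?_
      ring
    rw [Finset.sum_congr rfl fun i _ => h2 i, Finset.sum_comm]
    refine Finset.sum_congr rfl fun s _ => ?_
    rw [Finset.mul_sum]
  -- only `i₀` contributes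
  have hother : ∀ i : I, i ≠ ⟨i₀, hi₀⟩ →
      c i.1 * ((M : k) * ∏ l : I, ((P i l).coeff (κ' l) * z l.1 ^ κ' l)) = 0 := by
    intro i hi
    have h1 : ∏ l : I, ((P i l).coeff (κ' l) * z l.1 ^ κ' l) = 0 := by
      refine Finset.prod_eq_zero (mem_univ i) ?_
      have h2 : P i i = A i.1 := if_pos rfl
      have h3 : κ' i = D := if_neg fun h => hi (Subtype.ext h)
      rw [h2, h3, coeff_eq_zero_of_degree_lt (hA i.1 i.2), zero_mul]
    rw [h1, mul_zero, mul_zero]
  rw [Finset.sum_eq_single (⟨i₀, hi₀⟩ : I) (fun i _ hi => hother i hi)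
    (fun h => absurd (mem_univ _) h)] at htot
  rw [← Finset.mul_prod_erase univ _ (mem_univ (⟨i₀, hi₀⟩ : I))] at htot
  have h2 : P ⟨i₀, hi₀⟩ ⟨i₀, hi₀⟩ = A i₀ := if_pos rfl
  have h3 : κ' ⟨i₀, hi₀⟩ = j := if_pos rfl
  rw [h2, h3] at htot
  have h4 : ∏ l ∈ univ.erase (⟨i₀, hi₀⟩ : I), ((P ⟨i₀, hi₀⟩ l).coeff (κ' l) * z l.1 ^ κ' l) ≠ 0 := by
    refine Finset.prod_ne_zero_iff.2 fun l hl => ?_
    have hl' := Finset.ne_of_mem_erase hl
    have h5 : P ⟨i₀, hi₀⟩ l = B := if_neg hl'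
    have h6 : κ' l = D := if_neg fun h => hl' (Subtype.ext h)
    rw [h5, h6]
    exact mul_ne_zero hBD (pow_ne_zero _ (hz l.1 l.2))
  have h7 : c i₀ * (A i₀).coeff j * ((M : k) * z i₀ ^ j *
      ∏ l ∈ univ.erase (⟨i₀, hi₀⟩ : I), ((P ⟨i₀, hi₀⟩ l).coeff (κ' l) * z l.1 ^ κ' l)) = 0 := by
    rw [← htot]
    ring
  exact (mul_eq_zero.1 h7).resolve_right
    (mul_ne_zero (mul_ne_zero hMk (pow_ne_zero _ (hz i₀ hi₀))) h4)

end Pool.Agent.Q123.EG
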