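import Pool.Agent.Q23.EG.Stm

/-! Project EG of helper23, job A6. -/

set_option autoImplicit false

namespace Pool.Agent.Q123.EG

open Finset Polynomial Pool.Agent.Q23.EG

open scoped Classical in
/-- A6 -/
theorem par : S_par := by
  intro k _ M E Q N₁ m _ ψ₁ e ξ c₁ F hQ hN₁ hN hξ hF c hc
  set N : ℕ := N₁ * Q with hNdef
  have hN0 : N ≠ 0 := by
    rintro h0
    apply hN
    rw [h0, Nat.cast_zero]
  -- the coefficients
  set φ : ZMod Q → ℕ → k := fun c y =>
    if ξ * e ((M : ZMod Q) * c * (y : ZMod Q)) = 1 then ψ₁ (y : ZMod N₁) else 0 with hφ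
  have hVV : ∀ c : ZMod Q, VV M N ψ₁ e ξ F c =
      ∑ y ∈ range N, φ c y * F.eval ((y : k) / (N : ℕ)) * e c ^ y := fun c => rfl
  have hNQ : ((N : ℕ) : ZMod Q) = 0 := by
    rw [hNdef]
    push_cast
    rw [ZMod.natCast_self, mul_zero]
  have hNN : ((N : ℕ) : ZMod N₁) = 0 := by
    rw [hNdef]
    push_cast
    rw [ZMod.natCast_self, zero_mul]
  have hφ0 : ∀ c, φ c 0 = 0 := by
    intro c
    rw [hφ]
    simp only [Nat.cast_zero, mul_zero, AddChar.map_zero_eq_one, mul_one]
    rw [if_neg hξ]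
  have hφN : ∀ c, φ c N = 0 := by
    intro c
    rw [hφ]
    simp only
    rw [hNQ, mul_zero, AddChar.map_zero_eq_one, mul_one, if_neg hξ]
  have heN : ∀ c : ZMod Q, e c ^ N = 1 := by
    intro c
    rw [← AddChar.map_nsmul_eq_pow, nsmul_eq_mul, hNQ, zero_mul, AddChar.map_zero_eq_one]
  have hcast : ∀ y, y ≤ N → ((N - y : ℕ) : ZMod Q) = -(y : ZMod Q) := by
    intro y hy
    rw [Nat.cast_sub hy, hNQ, zero_sub]
  have hcast1 : ∀ y, y ≤ N → ((N - y : ℕ) : ZMod N₁) = -(y : ZMod N₁) := by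
    intro y hy
    rw [Nat.cast_sub hy, hNN, zero_sub]
  have hrefl : ∀ y, y ≤ N → φ (-c) (N - y) = ψ₁ (-1) * φ c y := by
    intro y hy
    rw [hφ]
    simp only
    rw [hcast y hy, hcast1 y hy]
    have h1 : (M : ZMod Q) * -c * -(y : ZMod Q) = (M : ZMod Q) * c * (y : ZMod Q) := by ring
    rw [h1]
    split_ifs
    · rw [← map_mul]
      congr 1
      ring
    · rw [mul_zero]
  have hpow : ∀ y, y ≤ N → e (-c) ^ (N - y) = e c ^ y := by
    intro y hy
    have h1 : e (-c) * e c = 1 := by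
      rw [← AddChar.map_add_eq_mul, neg_add_cancel, AddChar.map_zero_eq_one]
    have h2 : e (-c) ^ y * e c ^ y = 1 := by rw [← mul_pow, h1, one_pow]
    calc e (-c) ^ (N - y) = e (-c) ^ (N - y) * (e (-c) ^ y * e c ^ y) := by rw [h2, mul_one]
      _ = e (-c) ^ N * e c ^ y := by rw [← mul_assoc, ← pow_add, Nat.sub_add_cancel hy]
      _ = e c ^ y := by rw [heN, one_mul]
  have hev : ∀ y, y ≤ N → F.eval (((N - y : ℕ) : k) / (N : ℕ)) =
      (-1) ^ m * F.eval ((y : k) / (N : ℕ)) + c₁ := by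
    intro y hy
    rw [← hF, Nat.cast_sub hy]
    congr 1
    rw [sub_div, div_self hN]
  set g : ℕ → k := fun y => φ (-c) y * F.eval ((y : k) / (N : ℕ)) * e (-c) ^ y with hg
  have hg0 : g 0 = 0 := by
    rw [hg]
    simp only
    rw [hφ0, zero_mul, zero_mul]
  have hgN : g N = 0 := by
    rw [hg]
    simp only
    rw [hφN, zero_mul, zero_mul]
  have hsum : ∑ y ∈ range N, g y = ∑ y ∈ range N, g (N - y) := by
    have h1 := Finset.sum_range_reflect g (N + 1)
    simp only [Nat.add_sub_cancel] at h1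
    rw [Finset.sum_range_succ, Finset.sum_range_succ g, Nat.sub_self, hg0, hgN, add_zero,
      add_zero] at h1
    exact h1.symm
  have hz : ∑ y ∈ range N, φ c y * e c ^ y = 0 := by
    have hper : ∀ y, φ c (y + N₁ * E) = φ c y := by
      intro y
      rw [hφ]
      simp only
      have h1 : (M : ZMod Q) * c * ((y + N₁ * E : ℕ) : ZMod Q) = (M : ZMod Q) * c * (y : ZMod Q) := by
        have h2 : ((M * E : ℕ) : ZMod Q) = 0 := by rw [← hQ, ZMod.natCast_self]
        push_cast at h2 ⊢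
        linear_combination (c * (N₁ : ZMod Q)) * h2
      have h3 : ((y + N₁ * E : ℕ) : ZMod N₁) = (y : ZMod N₁) := by
        push_cast
        rw [ZMod.natCast_self, zero_mul, add_zero]
      rw [h1, h3]
    have hLW : N₁ * E * M = N := by rw [hNdef, hQ]; ring
    have h4 := sum_zero hper (W := M) (Z := e c) (by rw [hLW]; exact heN c) hc
    rwa [hLW] at h4
  rw [hVV, hVV]
  change ∑ y ∈ range N, g y = _
  rw [hsum]
  have hterm : ∀ y ∈ range N, g (N - y) =
      ψ₁ (-1) * (-1) ^ m * (φ c y * F.eval ((y : k) / (N : ℕ)) * e c ^ y) +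
        ψ₁ (-1) * c₁ * (φ c y * e c ^ y) := by
    intro y hy
    have hy' : y ≤ N := (mem_range.1 hy).le
    rw [hg]
    simp only
    rw [hrefl y hy', hpow y hy', hev y hy']
    ring
  rw [Finset.sum_congr rfl hterm, Finset.sum_add_distrib, ← mul_sum, ← mul_sum, hz, mul_zero, add_zero]

end Pool.Agent.Q123.EG
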